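import Mathlib

set_option autoImplicit false

/-!
Number of cycles of a permutation and multiplication by a transposition
(first part copied from `Pool.Agent.H891R2.MT.T2`).
-/

namespace Pool.Agent.Q254.CSwap

open Finset

/-! ### number of classes -/

section classes

variable {X : Type} [Finite X]

theorem card_quot_congr {r s : X → X → Prop} (h : ∀ x y, r x y → Quot.mk s x = Quot.mk s y)
    (h' : ∀ x y, s x y → Quot.mk r x = Quot.mk r y) : Nat.card (Quot r) = Nat.card (Quot s) := by
  apply Nat.card_congr
  refine ⟨Quot.lift (fun x => Quot.mk s x) h, Quot.lift (fun x => Quot.mk r x) h', ?_, ?_⟩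
  · rintro ⟨x⟩; rfl
  · rintro ⟨x⟩; rfl

/-- adding a pair of points which are already related -/
theorem card_add_same (r : X → X → Prop) (u v : X) (h : Quot.mk r u = Quot.mk r v) :
    Nat.card (Quot (fun x y => r x y ∨ (x = u ∧ y = v))) = Nat.card (Quot r) := by
  apply card_quot_congr
  · rintro x y (hxy | ⟨rfl, rfl⟩)
    · exact Quot.sound hxy
    · exact h
  · intro x y hxy
    exact Quot.sound (Or.inl hxy)

/-- adding a pair of points which are not related -/
theorem card_add_ne (r : X → X → Prop) (u v : X) (h : Quot.mk r u ≠ Quot.mk r v) :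
    Nat.card (Quot (fun x y => r x y ∨ (x = u ∧ y = v))) + 1 = Nat.card (Quot r) := by
  classical
  set r' : X → X → Prop := fun x y => r x y ∨ (x = u ∧ y = v) with hr'
  have e : Quot r' ≃ {c : Quot r // c ≠ Quot.mk r v} := by
    refine ⟨Quot.lift (fun x => if hx : Quot.mk r x = Quot.mk r v then ⟨Quot.mk r u, h⟩ else ⟨Quot.mk r x, hx⟩) ?_,
      fun c => Quot.lift (fun x => Quot.mk r' x) (fun x y hxy => Quot.sound (Or.inl hxy)) c.1, ?_, ?_⟩
    · rintro x y (hxy | ⟨rfl, rfl⟩)
      · have : Quot.mk r x = Quot.mk r y := Quot.sound hxy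
        simp only [this]
      · simp [h]
    · rintro ⟨x⟩
      show Quot.lift (fun x => Quot.mk r' x) _ (if hx : Quot.mk r x = Quot.mk r v then (⟨Quot.mk r u, h⟩ : {c : Quot r // c ≠ Quot.mk r v}) else ⟨Quot.mk r x, hx⟩).1 = Quot.mk r' x
      by_cases hx : Quot.mk r x = Quot.mk r v
      · simp only [hx, dite_true]
        have h1 : Quot.mk r' u = Quot.mk r' v := Quot.sound (Or.inr ⟨rfl, rfl⟩)
        have h2 : Quot.mk r' x = Quot.mk r' v := by
          have := congrArg (Quot.lift (fun x => Quot.mk r' x) (fun x y hxy => Quot.sound (Or.inl hxy))) hx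
          exact this
        rw [h2]; exact h1
      · simp only [hx, dite_false]
    · rintro ⟨⟨x⟩, hx⟩
      apply Subtype.ext
      have hx' : ¬ Quot.mk r x = Quot.mk r v := hx
      show (if hx : Quot.mk r x = Quot.mk r v then (⟨Quot.mk r u, h⟩ : {c : Quot r // c ≠ Quot.mk r v}) else ⟨Quot.mk r x, hx⟩).1 = Quot.mk r x
      simp only [hx', dite_false]
  rw [Nat.card_congr e]
  have := Fintype.ofFinite (Quot r)
  rw [Nat.card_eq_fintype_card, Nat.card_eq_fintype_card, Fintype.card_subtype_compl, Fintype.card_subtype_eq]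
  have : 0 < Fintype.card (Quot r) := Fintype.card_pos_iff.2 ⟨Quot.mk r v⟩
  omega

end classes

/-! ### cycles of permutations -/

section perms

variable {X : Type} [Finite X] [DecidableEq X]

open Equiv Equiv.Perm

/-- the number of cycles -/
noncomputable def cyc (p : Perm X) : ℕ := Nat.card (Quot (fun x y => p x = y))

theorem mk_pow (p : Perm X) (x : X) (n : ℕ) :
    Quot.mk (fun x y => p x = y) ((p ^ n) x) = Quot.mk (fun x y => p x = y) x := by
  induction n with
  | zero => rfl
  | succ n ih =>
    rw [pow_succ', Perm.mul_apply]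
    rw [← ih]
    exact (Quot.sound (r := fun x y => p x = y) rfl).symm

theorem mk_eq_iff (p : Perm X) (x y : X) :
    Quot.mk (fun x y => p x = y) x = Quot.mk (fun x y => p x = y) y ↔ p.SameCycle x y := by
  constructor
  · intro h
    have hg : Relation.EqvGen (fun x y => p x = y) x y := Quot.eqvGen_exact h
    clear h
    induction hg with
    | rel x y h => exact ⟨1, by simpa using h⟩
    | refl x => exact SameCycle.refl p x
    | symm x y _ ih => exact ih.symm
    | trans x y z _ _ ih1 ih2 => exact ih1.trans ih2
  · intro h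
    obtain ⟨n, hn⟩ := h.exists_nat_pow_eq 
    rw [← hn, mk_pow]

theorem pow_agree (p : Perm X) (u v : X) (r : ℕ) (h : ∀ j, 0 < j → j < r → (p ^ j) u ≠ u ∧ (p ^ j) u ≠ v) :
    ∀ j, j < r → ((swap u v * p) ^ j) u = (p ^ j) u := by
  intro j
  induction j with
  | zero => intro _; rfl
  | succ j ih =>
    intro hj
    rw [pow_succ', Perm.mul_apply, ih (by omega), Perm.mul_apply]
    have h1 := h (j + 1) (by omega) hj
    rw [pow_succ', Perm.mul_apply] at h1
    rw [swap_apply_of_ne_of_ne h1.1 h1.2, pow_succ', Perm.mul_apply]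

theorem same_of_not (p : Perm X) (u v : X) (h : ¬ p.SameCycle u v) : (swap u v * p).SameCycle u v := by
  classical
  have hex : ∃ n, 0 < n ∧ (p ^ n) u = u := by
    refine ⟨orderOf p, orderOf_pos p, ?_⟩
    rw [pow_orderOf_eq_one]; rfl
  set r := Nat.find hex with hr
  have hr1 := (Nat.find_spec hex).1
  have hr2 := (Nat.find_spec hex).2
  have hmin : ∀ j, 0 < j → j < r → (p ^ j) u ≠ u ∧ (p ^ j) u ≠ v := by
    intro j h0 hj
    refine ⟨fun hh => Nat.find_min hex hj ⟨h0, hh⟩, fun hh => h ⟨j, by simpa using hh⟩⟩
  have := pow_agree p u v r hmin (r - 1) (by omega)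
  refine ⟨(r : ℤ), ?_⟩
  have h2 : ((swap u v * p) ^ r) u = v := by
    conv_lhs => rw [show r = (r - 1) + 1 by omega]
    rw [pow_succ', Perm.mul_apply, this, Perm.mul_apply]
    have : p ((p ^ (r - 1)) u) = u := by
      have h3 := hr2
      rw [← hr] at h3
      conv_lhs at h3 => rw [show r = (r - 1) + 1 by omega]
      rw [pow_succ', Perm.mul_apply] at h3
      exact h3
    rw [this, swap_apply_left]
  simpa using h2

theorem not_of_same (p : Perm X) (u v : X) (huv : u ≠ v) (h : p.SameCycle u v) :
    ¬ (swap u v * p).SameCycle u v := by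
  classical
  have hex : ∃ n, 0 < n ∧ (p ^ n) u = v := by
    obtain ⟨n, hn⟩ := h.exists_nat_pow_eq 
    refine ⟨n, ?_, hn⟩
    rcases Nat.eq_zero_or_pos n with h0 | h0
    · subst h0; exact absurd hn (by simpa using huv)
    · exact h0
  set r := Nat.find hex with hr
  have hr1 := (Nat.find_spec hex).1
  have hr2 := (Nat.find_spec hex).2
  rw [← hr] at hr1 hr2
  have hmin : ∀ j, 0 < j → j < r → (p ^ j) u ≠ u ∧ (p ^ j) u ≠ v := by
    intro j h0 hj
    refine ⟨fun hh => ?_, fun hh => Nat.find_min hex hj ⟨h0, hh⟩⟩
    apply Nat.find_min hex (m := r - j) (by omega)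
    refine ⟨by omega, ?_⟩
    rw [show r = (r - j) + j by omega, pow_add, Perm.mul_apply, hh] at hr2
    exact hr2
  have hag := pow_agree p u v r hmin
  have hret : ((swap u v * p) ^ r) u = u := by
    have := hag (r - 1) (by omega)
    conv_lhs => rw [show r = (r - 1) + 1 by omega]
    rw [pow_succ', Perm.mul_apply, this, Perm.mul_apply]
    have : p ((p ^ (r - 1)) u) = v := by
      have h3 := hr2
      conv_lhs at h3 => rw [show r = (r - 1) + 1 by omega]
      rw [pow_succ', Perm.mul_apply] at h3
      exact h3
    rw [this, swap_apply_right]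
  intro hs
  obtain ⟨n, hn⟩ := hs.exists_nat_pow_eq 
  have hmul : ∀ m : ℕ, ((swap u v * p) ^ (r * m)) u = u := by
    intro m
    induction m with
    | zero => simp
    | succ m ih => rw [Nat.mul_succ, pow_add, Perm.mul_apply, hret, ih]
  rw [← Nat.mod_add_div n r, pow_add, Perm.mul_apply, hmul] at hn
  rw [hag _ (Nat.mod_lt _ hr1)] at hn
  rcases Nat.eq_zero_or_pos (n % r) with h0 | h0
  · rw [h0] at hn; exact huv (by simpa using hn)
  · exact (hmin _ h0 (Nat.mod_lt _ hr1)).2 hn

/-- the transposition lemma -/
theorem cyc_swap (p : Perm X) (u v : X) (huv : u ≠ v) :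
    (p.SameCycle u v → cyc (swap u v * p) = cyc p + 1) ∧ 
    (¬ p.SameCycle u v → cyc (swap u v * p) + 1 = cyc p) := by
  have key : Nat.card (Quot (fun x y => p x = y ∨ (x = u ∧ y = v))) = 
      Nat.card (Quot (fun x y => (swap u v * p) x = y ∨ (x = u ∧ y = v))) := by
    apply card_quot_congr
    · rintro x y (rfl | ⟨rfl, rfl⟩)
      · set s : X → X → Prop := fun x y => (swap u v * p) x = y ∨ (x = u ∧ y = v)
        have h1 : Quot.mk s x = Quot.mk s (swap u v (p x)) := Quot.sound (Or.inl rfl)
        have h2 : Quot.mk s u = Quot.mk s v := Quot.sound (Or.inr ⟨rfl, rfl⟩)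
        rw [h1]
        by_cases hu : p x = u
        · rw [hu, swap_apply_left, h2]
        by_cases hv : p x = v
        · rw [hv, swap_apply_right, h2]
        rw [swap_apply_of_ne_of_ne hu hv]
      · exact Quot.sound (Or.inr ⟨rfl, rfl⟩)
    · rintro x y (rfl | ⟨rfl, rfl⟩)
      · set s : X → X → Prop := fun x y => p x = y ∨ (x = u ∧ y = v)
        have h1 : Quot.mk s x = Quot.mk s (p x) := Quot.sound (Or.inl rfl)
        have h2 : Quot.mk s u = Quot.mk s v := Quot.sound (Or.inr ⟨rfl, rfl⟩)
        rw [h1, Perm.mul_apply]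
        by_cases hu : p x = u
        · rw [hu, swap_apply_left, h2]
        by_cases hv : p x = v
        · rw [hv, swap_apply_right, h2]
        rw [swap_apply_of_ne_of_ne hu hv]
      · exact Quot.sound (Or.inr ⟨rfl, rfl⟩)
  constructor
  · intro h
    have h' := not_of_same p u v huv h
    have a1 := card_add_same (fun x y => p x = y) u v ((mk_eq_iff p u v).2 h)
    have a2 := card_add_ne (fun x y => (swap u v * p) x = y) u v (fun hh => h' ((mk_eq_iff _ u v).1 hh))
    unfold cyc
    rw [← a1, ← a2, key]
  · intro h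
    have h' := same_of_not p u v h
    have a1 := card_add_ne (fun x y => p x = y) u v (fun hh => h ((mk_eq_iff p u v).1 hh))
    have a2 := card_add_same (fun x y => (swap u v * p) x = y) u v ((mk_eq_iff _ u v).2 h')
    unfold cyc
    rw [← a1, ← a2, key]

end perms


section more

variable {X : Type} [Finite X] [DecidableEq X]

open Equiv Equiv.Perm

theorem cyc_mul_swap_split (p : Perm X) (u v : X) (huv : u ≠ v) (h : p.SameCycle u v) :
    cyc (p * swap u v) = cyc p + 1 := by
  rw [Equiv.mul_swap_eq_swap_mul]
  apply (cyc_swap p (p u) (p v) (fun hh => huv (p.injective hh))).1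
  rw [sameCycle_apply_left, sameCycle_apply_right]; exact h

theorem cyc_mul_swap_merge (p : Perm X) (u v : X) (h : ¬ p.SameCycle u v) :
    cyc (p * swap u v) + 1 = cyc p := by
  have huv : u ≠ v := fun hh => h (hh ▸ SameCycle.refl p u)
  rw [Equiv.mul_swap_eq_swap_mul]
  apply (cyc_swap p (p u) (p v) (fun hh => huv (p.injective hh))).2
  rw [sameCycle_apply_left, sameCycle_apply_right]; exact h

theorem not_same_mul_swap (p : Perm X) (u v : X) (huv : u ≠ v) (h : p.SameCycle u v) :
    ¬ (p * swap u v).SameCycle u v := by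
  have h1 := not_of_same p (p u) (p v) (fun hh => huv (p.injective hh))
    (by rw [sameCycle_apply_left, sameCycle_apply_right]; exact h)
  rw [← Equiv.mul_swap_eq_swap_mul] at h1
  intro h2
  apply h1
  have e1 : (p * swap u v) v = p u := by simp
  have e2 : (p * swap u v) u = p v := by simp
  have h3 : (p * swap u v).SameCycle ((p * swap u v) v) ((p * swap u v) u) := by
    rw [sameCycle_apply_left, sameCycle_apply_right]; exact h2.symm
  rw [e1, e2] at h3
  exact h3

/-- properties invariant under a permutation are constant on its cycles -/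
theorem inv_same {p : Perm X} {f : X → Prop} (hf : ∀ z, f (p z) ↔ f z) {a b : X}
    (h : p.SameCycle a b) : f a ↔ f b := by
  obtain ⟨n, hn⟩ := h.exists_nat_pow_eq
  rw [← hn]
  clear hn h
  induction n with
  | zero => rfl
  | succ n ih => rw [pow_succ', Perm.mul_apply, hf]; exact ih

/-- a merging of two other cycles does not reach `c` -/
theorem not_same_merge {p : Perm X} {a b c : X} (h2 : ¬ p.SameCycle a c) (h3 : ¬ p.SameCycle b c) :
    ¬ (p * swap a b).SameCycle a c := by
  intro hs
  have := inv_same (p := p * swap a b) (f := fun z => p.SameCycle c z) (by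
      intro z
      simp only [Perm.mul_apply]
      rw [sameCycle_apply_right]
      by_cases hza : z = a
      · subst hza
        rw [swap_apply_left]
        exact ⟨fun hh => absurd hh.symm h3, fun hh => absurd hh.symm h2⟩
      · by_cases hzb : z = b
        · subst hzb
          rw [swap_apply_right]
          exact ⟨fun hh => absurd hh.symm h2, fun hh => absurd hh.symm h3⟩
        · rw [swap_apply_of_ne_of_ne hza hzb]) hs
  exact h2 (this.2 (SameCycle.refl p c)).symm

theorem cyc_pos (p : Perm X) (a : X) : 0 < cyc p := by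
  unfold cyc
  have : Nonempty (Quot (fun x y => p x = y)) := ⟨Quot.mk _ a⟩
  exact Nat.card_pos

/-- two classes: of three elements two are in the same cycle -/
theorem three_of_two {p : Perm X} (h : cyc p = 2) (a b c : X) :
    p.SameCycle a b ∨ p.SameCycle a c ∨ p.SameCycle b c := by
  by_contra hcon
  push Not at hcon
  obtain ⟨h1, h2, h3⟩ := hcon
  have hm := cyc_mul_swap_merge p a b h1
  have hm2 := cyc_mul_swap_merge (p * swap a b) a c (not_same_merge h2 h3)
  have hpos := cyc_pos (p * swap a b * swap a c) a
  omega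

/-- one class: everything is in the same cycle -/
theorem same_of_one {p : Perm X} (h : cyc p = 1) (a b : X) : p.SameCycle a b := by
  by_contra hcon
  have hm := cyc_mul_swap_merge p a b hcon
  have hpos := cyc_pos (p * swap a b) a
  omega

/-- two classes are not one -/
theorem not_all_same {p : Perm X} (h : cyc p = 2) (a : X) : ∃ b, ¬ p.SameCycle a b := by
  by_contra hcon
  push Not at hcon
  unfold cyc at h
  rw [Nat.card_eq_two_iff] at h
  obtain ⟨x, y, hxy, -⟩ := h
  induction x using Quot.ind with
  | mk x =>
  induction y using Quot.ind with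
  | mk y =>
  exact hxy ((mk_eq_iff p x y).2 ((hcon x).symm.trans (hcon y)))

/-- the double transposition lemma, two classes -/
theorem double_swap {p : Perm X} (h : cyc p = 2) {A B C D : X} (hAB : A ≠ B) (hAC : A ≠ C)
    (hBC : B ≠ C) (hBD : B ≠ D) (hCD : C ≠ D) (hAD : A ≠ D)
    (hne : ¬ p.SameCycle A D ∨ ¬ p.SameCycle B C) :
    cyc (p * swap A D * swap B C) = 2 := by
  rcases hne with hne | hne
  · have h1 := cyc_mul_swap_merge p A D hne
    have h2 : cyc (p * swap A D) = 1 := by omega
    rw [cyc_mul_swap_split _ B C hBC (same_of_one h2 B C), h2]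
  · have hcomm : p * swap A D * swap B C = p * swap B C * swap A D := by
      rw [mul_assoc, mul_assoc]
      congr 1
      exact (Equiv.Perm.disjoint_swap_swap (by simp [hAB, hAC, hBC, hAD, hBD.symm, hCD.symm])).commute
    rw [hcomm]
    have h1 := cyc_mul_swap_merge p B C hne
    have h2 : cyc (p * swap B C) = 1 := by omega
    rw [cyc_mul_swap_split _ A D hAD (same_of_one h2 A D), h2]

/-- inserting a fixed point `q` before/after `A` does not join the cycles of `x` and `y` -/
theorem insert_fixed {p : Perm X} {q A x y : X} (hq : p q = q) (hA : A ≠ q) (hx : x ≠ q)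
    (hy : y ≠ q) (h : ¬ p.SameCycle x y) : ¬ (p * swap q A).SameCycle x y := by
  intro hs
  have := inv_same (p := p * swap q A)
    (f := fun z => (z ≠ q ∧ p.SameCycle x z) ∨ (z = q ∧ p.SameCycle x A)) (by
      intro z
      simp only [Perm.mul_apply]
      by_cases hzq : z = q
      · subst hzq
        rw [swap_apply_left]
        have hne : p A ≠ z := by
          intro hh; exact hA (p.injective (hh.trans hq.symm))
        simp [hne, sameCycle_apply_right]
      · by_cases hzA : z = A
        · subst hzA
          rw [swap_apply_right, hq]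
          simp [hzq]
        · rw [swap_apply_of_ne_of_ne hzq hzA]
          have hne : p z ≠ q := by
            intro hh; exact hzq (p.injective (hh.trans hq.symm))
          simp [hne, hzq, sameCycle_apply_right]) hs
  have h1 : (x ≠ q ∧ p.SameCycle x x) ∨ (x = q ∧ p.SameCycle x A) := Or.inl ⟨hx, SameCycle.refl p x⟩
  rcases this.1 h1 with h2 | h2
  · exact h h2.2
  · exact hy h2.1

/-- splitting a cycle at `p` so that two given elements get separated -/
theorem split_sep (φ : Perm X) (p u w : X) (huw : u ≠ w) (hpu : p ≠ u) (h1 : φ.SameCycle p u)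
    (h2 : φ.SameCycle p w) :
    (¬ (φ * swap p u).SameCycle u w) ∨ (p ≠ w ∧ ¬ (φ * swap p w).SameCycle u w) := by
  classical
  by_cases hpw : p = w
  · left
    subst hpw
    intro hh
    exact not_same_mul_swap φ p u hpu h1 hh.symm
  have hex : ∃ n, 0 < n ∧ ((φ ^ n) p = u ∨ (φ ^ n) p = w) := by
    obtain ⟨n, hn⟩ := h1.exists_nat_pow_eq
    refine ⟨n, ?_, Or.inl hn⟩
    rcases Nat.eq_zero_or_pos n with h0 | h0
    · subst h0; exact absurd hn (by simpa using hpu)
    · exact h0
  set k := Nat.find hex with hk
  have hk1 := (Nat.find_spec hex).1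
  have hk2 := (Nat.find_spec hex).2
  rw [← hk] at hk1 hk2
  have hmin : ∀ j, 0 < j → j < k → (φ ^ j) p ≠ u ∧ (φ ^ j) p ≠ w := by
    intro j h0 hj
    exact ⟨fun hh => Nat.find_min hex hj ⟨h0, Or.inl hh⟩, fun hh => Nat.find_min hex hj ⟨h0, Or.inr hh⟩⟩
  have hminp : ∀ j, 0 < j → j ≤ k → (φ ^ j) p ≠ p := by
    intro j h0 hj hh
    have e : (φ ^ (k - j)) p = (φ ^ k) p := by
      conv_rhs => rw [show k = (k - j) + j by omega, pow_add, Perm.mul_apply, hh]
    rcases Nat.eq_zero_or_pos (k - j) with h3 | h3
    · rw [h3] at e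
      have e' : p = (φ ^ k) p := by simpa using e
      rcases hk2 with h4 | h4
      · exact hpu (e'.trans h4)
      · exact hpw (e'.trans h4)
    · have := hmin (k - j) h3 (by omega)
      rcases hk2 with h4 | h4
      · exact this.1 (e.trans h4)
      · exact this.2 (e.trans h4)
  -- the general statement
  have key : ∀ x y : X, (φ ^ k) p = x → x ≠ y → (∀ j, 0 < j → j < k → (φ ^ j) p ≠ y) →
      ¬ (φ * swap p x).SameCycle x y := by
    intro x y hx hxy hy hs
    have hxp : x ≠ p := by
      rw [← hx]; exact hminp k hk1 le_rfl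
    have := inv_same (p := φ * swap p x) (f := fun z => ∃ j, 0 < j ∧ j ≤ k ∧ z = (φ ^ j) p) (by
      intro z
      simp only [Perm.mul_apply]
      by_cases hzp : z = p
      · subst hzp
        rw [swap_apply_left]
        constructor
        · rintro ⟨j, hj0, hjk, hj⟩
          exfalso
          have e1 : x = (φ ^ (j - 1)) z := by
            apply φ.injective
            rw [hj, ← Perm.mul_apply, ← pow_succ', Nat.sub_add_cancel hj0]
          rcases Nat.eq_zero_or_pos (j - 1) with h3 | h3
          · rw [h3] at e1
            exact hxp (by simpa using e1)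
          · -- `φ^(j-1) z = φ^k z` with `j - 1 < k`
            have e2 : (φ ^ (k - (j - 1))) z = z := by
              have e3 : (φ ^ (j - 1)) ((φ ^ (k - (j - 1))) z) = (φ ^ (j - 1)) z := by
                rw [← Perm.mul_apply, ← pow_add, show (j - 1) + (k - (j - 1)) = k by omega, hx, ← e1]
              exact (φ ^ (j - 1)).injective e3
            exact hminp (k - (j - 1)) (by omega) (by omega) e2
        · rintro ⟨j, hj0, hjk, hj⟩
          exact absurd hj.symm (hminp j hj0 hjk)
      · by_cases hzx : z = x
        · subst hzx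
          rw [swap_apply_right]
          constructor
          · intro _
            exact ⟨k, hk1, le_rfl, hx.symm⟩
          · intro _
            exact ⟨1, one_pos, hk1, by simp⟩
        · rw [swap_apply_of_ne_of_ne hzp hzx]
          constructor
          · rintro ⟨j, hj0, hjk, hj⟩
            have e1 : z = (φ ^ (j - 1)) p := by
              apply φ.injective
              rw [hj, ← Perm.mul_apply, ← pow_succ', Nat.sub_add_cancel hj0]
            rcases Nat.eq_zero_or_pos (j - 1) with h3 | h3
            · rw [h3] at e1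
              exact absurd (by simpa using e1) hzp
            · exact ⟨j - 1, h3, by omega, e1⟩
          · rintro ⟨j, hj0, hjk, hj⟩
            have hjk' : j ≠ k := by
              rintro rfl
              exact hzx (hj.trans hx)
            refine ⟨j + 1, by omega, by omega, ?_⟩
            rw [hj, ← Perm.mul_apply, ← pow_succ']) hs
    obtain ⟨j, hj0, hjk, hj⟩ := this.1 ⟨k, hk1, le_rfl, hx.symm⟩
    rcases Nat.lt_or_ge j k with h3 | h3
    · exact hy j hj0 h3 hj.symm
    · have : j = k := le_antisymm hjk h3
      subst this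
      exact hxy (hx.symm.trans hj.symm)
  rcases hk2 with h4 | h4
  · left
    exact key u w h4 huw (fun j h0 hj => (hmin j h0 hj).2)
  · right
    refine ⟨hpw, fun hh => ?_⟩
    exact key w u h4 huw.symm (fun j h0 hj => (hmin j h0 hj).1) hh.symm

end more

end Pool.Agent.Q254.CSwap
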