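import Mathlib

set_option autoImplicit false

/-!
Chord diagrams, their genus, chord swaps (definitions for MP_84806a_co).
-/

namespace Pool.Agent.Q254.CSwap

/-- A chord diagram on the `2n` sides `0, 1, ..., 2n-1` (in cyclic order) of a polygon: a perfect
matching of the sides, given by the map sending every side to its partner. -/
structure ChordDiagram (n : ℕ) where
  /-- the partner of a side -/
  partner : Equiv.Perm (Fin (2 * n))
  invol : ∀ i, partner (partner i) = i
  ne : ∀ i, partner i ≠ i

variable {n : ℕ}

/-- The polygon vertex `i` is the start of the side `i`, and the next vertex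
`finRotate (2 * n) i` (i.e. `i + 1` modulo `2n`) is the end of the side `i`.  The orientable gluing of
the side `i` to its partner `j` identifies the start `i` of the side `i` with the end of the side `j`
(and the end of `i` with the start of `j`, which is the same statement for the side `j`). -/
def ChordDiagram.glue (X : ChordDiagram n) (i k : Fin (2 * n)) : Prop :=
  finRotate (2 * n) (X.partner i) = k

/-- The number `V` of classes of polygon vertices after the identification. -/
noncomputable def ChordDiagram.vertexCount (X : ChordDiagram n) : ℕ := Nat.card (Quot X.glue)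

/-- The diagram has genus `g`: `g = (n + 1 - V) / 2`. -/
def ChordDiagram.HasGenus (X : ChordDiagram n) (g : ℕ) : Prop := n + 1 = X.vertexCount + 2 * g

/-- `Y` is a chord swap of `X`: for two distinct chords `{A, B}`, `{C, D}` of `X`, it is
`(X \ {AB, CD}) ∪ {AC, BD}` (the names `C` and `D` may be exchanged). -/
def IsSwap (X Y : ChordDiagram n) : Prop :=
  ∃ A B C D : Fin (2 * n), X.partner A = B ∧ X.partner C = D ∧ C ≠ A ∧ C ≠ B ∧
    Y.partner A = C ∧ Y.partner B = D ∧
    ∀ x, x ≠ A → x ≠ B → x ≠ C → x ≠ D → Y.partner x = X.partner x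

theorem IsSwap.symm {X Y : ChordDiagram n} (h : IsSwap X Y) : IsSwap Y X := by
  obtain ⟨A, B, C, D, hAB, hCD, hCA, hCB, hAC, hBD, hrest⟩ := h
  have hBA : B ≠ A := fun hh => X.ne A (hAB.trans hh)
  refine ⟨A, C, B, D, hAC, hBD, hBA, hCB.symm, hAB, hCD, ?_⟩
  intro x h1 h2 h3 h4
  exact (hrest x h1 h3 h2 h4).symm

/-- The graph `G_{n,g}` on the chord diagrams with `n` chords and genus `g`. -/
def swapGraph (n g : ℕ) : SimpleGraph {X : ChordDiagram n // X.HasGenus g} where
  Adj X Y := X ≠ Y ∧ IsSwap X.1 Y.1
  symm := ⟨fun _ _ h => ⟨h.1.symm, h.2.symm⟩⟩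
  loopless := ⟨fun _ h => h.1 rfl⟩

/-- The Bolza diagram: every side is matched with the opposite side. -/
def ChordDiagram.IsBolza (X : ChordDiagram n) : Prop :=
  ∀ i, (X.partner i : ℕ) = ((i : ℕ) + n) % (2 * n)

/-- `D(n, g)`: the diameter (in `ℕ∞`) of `G_{n,g}` without the isolated Bolza diagram, which occurs
for `g = n / 2` only. -/
noncomputable def diam (n g : ℕ) : ℕ∞ :=
  ((swapGraph n g).induce {X | ¬ (2 * g = n ∧ X.1.IsBolza)}).ediam

end Pool.Agent.Q254.CSwap
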