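import Pool.Agent.Q254.CSwap.Cyc
import Pool.Agent.Q254.CSwap.Defs

set_option autoImplicit false

namespace Pool.Agent.Q254.CSwap

open Equiv Equiv.Perm

variable {n : ℕ}

/-- the permutation whose cycles are the vertices -/
def ChordDiagram.phi (X : ChordDiagram n) : Perm (Fin (2 * n)) := finRotate (2 * n) * X.partner

theorem ChordDiagram.phi_apply (X : ChordDiagram n) (i : Fin (2 * n)) :
    X.phi i = finRotate (2 * n) (X.partner i) := rfl

theorem ChordDiagram.vertexCount_eq (X : ChordDiagram n) : X.vertexCount = cyc X.phi := rfl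

/-- conjugation by a transposition -/
def ChordDiagram.conj (X : ChordDiagram n) (B C : Fin (2 * n)) : ChordDiagram n where
  partner := swap B C * X.partner * swap B C
  invol i := by simp [Perm.mul_apply, X.invol]
  ne i := by
    intro h
    rw [Perm.mul_apply, Perm.mul_apply, ← Equiv.eq_symm_apply] at h
    exact X.ne _ (h.trans (by simp))

theorem ChordDiagram.conj_apply (X : ChordDiagram n) (B C i : Fin (2 * n)) :
    (X.conj B C).partner i = swap B C (X.partner (swap B C i)) := rfl

theorem ChordDiagram.partner_eq_iff (X : ChordDiagram n) (i j : Fin (2 * n)) :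
    X.partner i = j ↔ X.partner j = i := by
  constructor
  · rintro rfl; exact X.invol i
  · rintro rfl; exact X.invol j

theorem ChordDiagram.conj_of_ne (X : ChordDiagram n) {B C i : Fin (2 * n)} (h1 : i ≠ B) (h2 : i ≠ C)
    (h3 : i ≠ X.partner B) (h4 : i ≠ X.partner C) : (X.conj B C).partner i = X.partner i := by
  rw [X.conj_apply, swap_apply_of_ne_of_ne h1 h2, swap_apply_of_ne_of_ne]
  · intro h; exact h3 ((X.partner_eq_iff _ _).1 h).symm
  · intro h; exact h4 ((X.partner_eq_iff _ _).1 h).symm

theorem ChordDiagram.phi_conj (X : ChordDiagram n) (B C : Fin (2 * n)) :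
    (X.conj B C).phi = X.phi * swap (X.partner B) (X.partner C) * swap B C := by
  ext1 i
  have key : ∀ j, swap B C (X.partner j) = X.partner (swap (X.partner B) (X.partner C) j) := by
    intro j
    rcases eq_or_ne j (X.partner B) with h1 | h1
    · rw [h1, X.invol, swap_apply_left, swap_apply_left, X.invol]
    · rcases eq_or_ne j (X.partner C) with h2 | h2
      · rw [h2, X.invol, swap_apply_right, swap_apply_right, X.invol]
      · rw [swap_apply_of_ne_of_ne h1 h2, swap_apply_of_ne_of_ne]
        · intro h; exact h1 ((X.partner_eq_iff _ _).1 h).symm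
        · intro h; exact h2 ((X.partner_eq_iff _ _).1 h).symm
  rw [ChordDiagram.phi_apply, X.conj_apply, Perm.mul_apply, Perm.mul_apply, ChordDiagram.phi_apply, key]

theorem ChordDiagram.isSwap_conj (X : ChordDiagram n) {B C : Fin (2 * n)} (h1 : B ≠ C)
    (h2 : X.partner B ≠ C) : IsSwap X (X.conj B C) := by
  refine ⟨X.partner B, B, C, X.partner C, X.invol B, rfl, h2.symm, h1.symm, ?_, ?_, ?_⟩
  · rw [X.conj_apply, swap_apply_of_ne_of_ne (X.ne B) h2, X.invol, swap_apply_left]
  · rw [X.conj_apply, swap_apply_left, swap_apply_of_ne_of_ne]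
    · intro h; exact h2 (by rw [← h, X.invol])
    · exact X.ne C
  · intro x hA hB hC hD
    exact X.conj_of_ne hB hC hA hD

theorem ChordDiagram.conj_two {X : ChordDiagram n} (h : X.vertexCount = 2) {B C : Fin (2 * n)}
    (h1 : B ≠ C) (h2 : X.partner B ≠ C)
    (h3 : ¬ X.phi.SameCycle (X.partner B) (X.partner C) ∨ ¬ X.phi.SameCycle B C) :
    (X.conj B C).vertexCount = 2 := by
  rw [ChordDiagram.vertexCount_eq, ChordDiagram.phi_conj]
  rw [ChordDiagram.vertexCount_eq] at h
  apply double_swap h (X.ne B) h2 h1 _ (X.ne C).symm _ h3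
  · intro hh; exact h2 (by rw [hh, X.invol])
  · intro hh; exact h1 (X.partner.injective hh)

/-- reachability in at most `m` swaps through diagrams with two vertices -/
inductive Reach : ℕ → ChordDiagram n → ChordDiagram n → Prop
  | refl (m : ℕ) (X : ChordDiagram n) : Reach m X X
  | step {m : ℕ} {X Y Z : ChordDiagram n} : Reach m X Y → IsSwap Y Z → Z.vertexCount = 2 →
      Reach (m + 1) X Z

theorem Reach.mono {m : ℕ} {X Y : ChordDiagram n} (h : Reach m X Y) :
    ∀ {m' : ℕ}, m ≤ m' → Reach m' X Y := by
  induction h with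
  | refl m X => intro m' _; exact Reach.refl m' X
  | step h1 h2 h3 ih =>
    intro m' hm
    obtain ⟨l, rfl⟩ : ∃ l, m' = l + 1 := ⟨m' - 1, by omega⟩
    exact Reach.step (ih (by omega)) h2 h3

theorem Reach.trans {m m' : ℕ} {X Y Z : ChordDiagram n} (h : Reach m X Y) (h' : Reach m' Y Z) :
    Reach (m + m') X Z := by
  induction h' with
  | refl m' Y => exact h.mono (by omega)
  | step h1 h2 h3 ih => exact Reach.step (ih h) h2 h3

/-- the pairing inside a block of four sides -/
def hp (v : ℕ) : ℕ := if v % 4 < 2 then v + 2 else v - 2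

/-- the first `k` blocks of four sides are handles -/
def Hd (k : ℕ) (X : ChordDiagram n) : Prop :=
  ∀ i : Fin (2 * n), i.val < 4 * k → (X.partner i).val = hp i.val

theorem hp_lt {v k : ℕ} (h : v < 4 * k) : hp v < 4 * k := by
  unfold hp; split_ifs <;> omega

theorem Hd.ge {k : ℕ} {X : ChordDiagram n} (h : Hd k X) {i : Fin (2 * n)} (hi : 4 * k ≤ i.val) :
    4 * k ≤ (X.partner i).val := by
  by_contra hcon
  push Not at hcon
  have h1 := h _ hcon
  rw [X.invol] at h1
  have := hp_lt hcon
  omega

theorem Hd.conj {k : ℕ} {X : ChordDiagram n} (h : Hd k X) {B C : Fin (2 * n)}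
    (hB : 4 * k ≤ B.val) (hC : 4 * k ≤ C.val) : Hd k (X.conj B C) := by
  intro i hi
  rw [X.conj_of_ne, h i hi]
  · rintro rfl; omega
  · rintro rfl; omega
  · rintro rfl
    have := h.ge hB
    omega
  · rintro rfl
    have := h.ge hC
    omega

theorem rot_val {N : ℕ} (i : Fin N) (h : i.val + 1 < N) : (finRotate N i).val = i.val + 1 := by
  obtain ⟨m, rfl⟩ : ∃ m, N = m + 1 := ⟨N - 1, by omega⟩
  rw [coe_finRotate_of_ne_last]
  intro hh
  rw [hh] at h
  simp at h

theorem same_phi (X : ChordDiagram n) (i : Fin (2 * n)) : X.phi.SameCycle i (X.phi i) := by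
  rw [sameCycle_apply_right]

theorem same_of_val {X : ChordDiagram n} {i j : Fin (2 * n)} (h : i.val = j.val) :
    X.phi.SameCycle i j := by
  rw [Fin.ext h]

/-- the corners of the handles and the next corner are all in one class -/
theorem Hd.same {k : ℕ} {X : ChordDiagram n} (h : Hd k X) (hk : 4 * k < 2 * n) :
    ∀ i j : Fin (2 * n), i.val ≤ 4 * k → j.val ≤ 4 * k → X.phi.SameCycle i j := by
  -- the value of `phi`
  have hphi : ∀ i : Fin (2 * n), i.val < 4 * k → (X.phi i).val = hp i.val + 1 := by
    intro i hi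
    rw [ChordDiagram.phi_apply, rot_val, h i hi]
    rw [h i hi]
    have := hp_lt hi
    omega
  have hlink : ∀ i j : Fin (2 * n), i.val < 4 * k → j.val = hp i.val + 1 → X.phi.SameCycle i j := by
    intro i j hi hj
    have : X.phi i = j := Fin.ext (by rw [hphi i hi, hj])
    rw [← this]; exact same_phi X i
  -- consecutive corners
  have hcons : ∀ i j : Fin (2 * n), i.val < 4 * k → j.val = i.val + 1 → X.phi.SameCycle i j := by
    intro i j hi hj
    -- the block
    have hb : i.val / 4 < k := by omega
    let a : Fin (2 * n) := ⟨4 * (i.val / 4), by omega⟩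
    let b : Fin (2 * n) := ⟨4 * (i.val / 4) + 1, by omega⟩
    let c : Fin (2 * n) := ⟨4 * (i.val / 4) + 2, by omega⟩
    let d : Fin (2 * n) := ⟨4 * (i.val / 4) + 3, by omega⟩
    let e : Fin (2 * n) := ⟨4 * (i.val / 4) + 4, by omega⟩
    have had : X.phi.SameCycle a d := hlink a d (by simp only [a]; omega) (by
      simp only [a, d, hp]; split_ifs <;> omega)
    have hdc : X.phi.SameCycle d c := hlink d c (by simp only [d]; omega) (by
      simp only [c, d, hp]; split_ifs <;> omega)
    have hcb : X.phi.SameCycle c b := hlink c b (by simp only [c]; omega) (by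
      simp only [c, b, hp]; split_ifs <;> omega)
    have hbe : X.phi.SameCycle b e := hlink b e (by simp only [b]; omega) (by
      simp only [b, e, hp]; split_ifs <;> omega)
    have h4 : i.val % 4 = 0 ∨ i.val % 4 = 1 ∨ i.val % 4 = 2 ∨ i.val % 4 = 3 := by omega
    rcases h4 with h4 | h4 | h4 | h4
    · have e1 : i = a := Fin.ext (by simp only [a]; omega)
      have e2 : j = b := Fin.ext (by simp only [b]; omega)
      rw [e1, e2]
      exact had.trans (hdc.trans hcb)
    · have e1 : i = b := Fin.ext (by simp only [b]; omega)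
      have e2 : j = c := Fin.ext (by simp only [c]; omega)
      rw [e1, e2]
      exact hcb.symm
    · have e1 : i = c := Fin.ext (by simp only [c]; omega)
      have e2 : j = d := Fin.ext (by simp only [d]; omega)
      rw [e1, e2]
      exact hdc.symm
    · have e1 : i = d := Fin.ext (by simp only [d]; omega)
      have e2 : j = e := Fin.ext (by simp only [e]; omega)
      rw [e1, e2]
      exact hdc.trans (hcb.trans hbe)
  have h0 : ∀ m : ℕ, ∀ i j : Fin (2 * n), i.val = 0 → j.val = m → m ≤ 4 * k → X.phi.SameCycle i j := by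
    intro m
    induction m with
    | zero => intro i j hi hj _; exact same_of_val (by omega)
    | succ m ih =>
      intro i j hi hj hm
      have hlt := j.isLt
      exact (ih i ⟨m, by omega⟩ hi rfl (by omega)).trans (hcons ⟨m, by omega⟩ j (by simp only []; omega) (by simp only []; omega))
  intro i j hi hj
  exact (h0 i.val ⟨0, by omega⟩ i rfl rfl hi).symm.trans (h0 j.val ⟨0, by omega⟩ j rfl rfl hj)

end Pool.Agent.Q254.CSwap
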