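import Pool.Agent.Q254.CSwap.Main

set_option autoImplicit false

namespace Pool.Agent.Q254.CSwap

open Equiv Equiv.Perm

variable {n : ℕ}

theorem same_of_fixed {X : Type} [Finite X] {p : Perm X} {q x : X} (hq : p q = q)
    (h : p.SameCycle q x) : x = q := by
  obtain ⟨m, hm⟩ := h.exists_nat_pow_eq
  rw [← hm]
  clear hm
  induction m with
  | zero => rfl
  | succ m ih => rw [pow_succ', Perm.mul_apply, ih, hq]

/-- creating a leaf -/
theorem leaf {k : ℕ} {X : ChordDiagram n} (hX : X.vertexCount = 2) (h : Hd k X)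
    {s : Fin (2 * n)} (hs : 4 * k ≤ s.val) (hs2 : s.val + 2 ≤ 2 * n)
    (hns : ¬ X.phi.SameCycle s (finRotate (2 * n) (finRotate (2 * n) s))) :
    ∃ Y : ChordDiagram n, Reach 1 X Y ∧ Y.vertexCount = 2 ∧ Hd k Y ∧
      Y.partner s = finRotate (2 * n) s := by
  have hv : (finRotate (2 * n) s).val = s.val + 1 := rot_val s (by omega)
  by_cases hc : X.partner s = finRotate (2 * n) s
  · exact ⟨X, Reach.refl 1 X, hX, h, hc⟩
  have hne : s ≠ finRotate (2 * n) s := by
    intro hh
    have := congrArg Fin.val hh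
    omega
  have h2 : X.partner (X.partner s) ≠ finRotate (2 * n) s := by rw [X.invol]; exact hne
  have hcrit : (X.conj (X.partner s) (finRotate (2 * n) s)).vertexCount = 2 := by
    apply ChordDiagram.conj_two hX hc h2
    left
    rw [X.invol]
    intro hh
    apply hns
    have h3 := same_phi X (X.partner (finRotate (2 * n) s))
    rw [ChordDiagram.phi_apply, X.invol] at h3
    exact hh.trans h3
  refine ⟨X.conj (X.partner s) (finRotate (2 * n) s),
    Reach.step (Reach.refl 0 X) (X.isSwap_conj hc h2) hcrit, hcrit,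
    h.conj (h.ge hs) (by rw [hv]; omega), ?_⟩
  rw [X.conj_apply, swap_apply_of_ne_of_ne (X.ne s).symm hne, swap_apply_left]

/-- all corners at distance two in the remaining part are in the same class -/
def Dip (k : ℕ) (X : ChordDiagram n) : Prop :=
  ∀ s : Fin (2 * n), 4 * k ≤ s.val → s.val + 2 ≤ 2 * n →
    X.phi.SameCycle s (finRotate (2 * n) (finRotate (2 * n) s))

theorem Dip.chain {k : ℕ} {X : ChordDiagram n} (h : Dip k X) (m : ℕ) :
    ∀ i j : Fin (2 * n), 4 * k ≤ i.val → j.val = i.val + 2 * m → X.phi.SameCycle i j := by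
  induction m with
  | zero => intro i j _ hj; exact same_of_val (by omega)
  | succ m ih =>
    intro i j hi hj
    have hjl := j.isLt
    have h1 := ih i ⟨i.val + 2 * m, by omega⟩ hi rfl
    have h2 := h ⟨i.val + 2 * m, by omega⟩ (by simp only []; omega) (by simp only []; omega)
    have hv1 : (finRotate (2 * n) ⟨i.val + 2 * m, by omega⟩).val = i.val + 2 * m + 1 :=
      rot_val _ (by simp only []; omega)
    have hv2 : (finRotate (2 * n) (finRotate (2 * n) ⟨i.val + 2 * m, by omega⟩)).val =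
        i.val + 2 * m + 2 := by
      rw [rot_val _ (by rw [hv1]; omega), hv1]
    exact h1.trans (h2.trans (same_of_val (by rw [hv2]; omega)))

theorem Dip.ne {k : ℕ} {X : ChordDiagram n} (h : Dip k X) (hX : X.vertexCount = 2) (hd : Hd k X)
    (hk : 4 * k + 2 ≤ 2 * n) :
    ¬ X.phi.SameCycle ⟨4 * k, by omega⟩ ⟨4 * k + 1, by omega⟩ := by
  intro hs
  obtain ⟨b, hb⟩ := not_all_same (p := X.phi) hX ⟨4 * k, by omega⟩
  apply hb
  rcases Nat.lt_or_ge b.val (4 * k) with h1 | h1
  · exact hd.same (by omega) _ _ le_rfl (by omega)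
  · rcases Nat.even_or_odd' (b.val - 4 * k) with ⟨m, hm | hm⟩
    · exact h.chain m _ _ le_rfl (by simp only []; omega)
    · exact hs.trans (h.chain m _ _ (by simp only []; omega) (by simp only []; omega))

theorem Dip.odd {k : ℕ} {X : ChordDiagram n} (h : Dip k X) (hX : X.vertexCount = 2) (hd : Hd k X)
    (hk : 4 * k + 2 ≤ 2 * n) {i : Fin (2 * n)} (hi : 4 * k ≤ i.val) (hi2 : i.val % 2 = 0) :
    (X.partner i).val % 2 = 1 := by
  by_contra hcon
  have hpe : (X.partner i).val % 2 = 0 := by omega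
  have hge := hd.ge hi
  have hlt := (X.partner i).isLt
  apply h.ne hX hd hk
  have h1 : X.phi.SameCycle ⟨4 * k, by omega⟩ i :=
    h.chain ((i.val - 4 * k) / 2) _ _ le_rfl (by simp only []; omega)
  have h2 := same_phi X i
  have hv : (X.phi i).val = (X.partner i).val + 1 := by
    rw [ChordDiagram.phi_apply, rot_val _ (by omega)]
  have h3 : X.phi.SameCycle ⟨4 * k + 1, by omega⟩ (X.phi i) :=
    h.chain (((X.partner i).val - 4 * k) / 2) _ _ (by simp only []; omega)
      (by rw [hv]; simp only []; omega)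
  exact h1.trans (h2.trans h3.symm)

/-- escaping from a dipole -/
theorem escape {k : ℕ} {X : ChordDiagram n} (hX : X.vertexCount = 2) (hd : Hd k X)
    (hk : 4 * k + 4 ≤ 2 * n) : ∃ Y : ChordDiagram n, Reach 1 X Y ∧ Y.vertexCount = 2 ∧ Hd k Y ∧
      ¬ Dip k Y := by
  by_cases h : Dip k X
  swap
  · exact ⟨X, Reach.refl 1 X, hX, hd, h⟩
  have hne := h.ne hX hd (by omega)
  let u : Fin (2 * n) := ⟨4 * k, by omega⟩
  let w : Fin (2 * n) := ⟨4 * k + 2, by omega⟩
  have hou : (X.partner u).val % 2 = 1 := h.odd hX hd (by omega) le_rfl (by simp only [u]; omega)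
  have how : (X.partner w).val % 2 = 1 := h.odd hX hd (by omega) (by simp only [w]; omega)
    (by simp only [w]; omega)
  have h1 : X.partner u ≠ w := by
    intro hh
    rw [hh] at hou
    simp only [w] at hou
    omega
  have huw : u ≠ w := by
    intro hh
    have := congrArg Fin.val hh
    simp only [u, w] at this
    omega
  have h2 : X.partner (X.partner u) ≠ w := by rw [X.invol]; exact huw
  have hgw := hd.ge (i := w) (by simp only [w]; omega)
  have hgu := hd.ge (i := u) (by simp only [u]; omega)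
  have hcrit : (X.conj (X.partner u) w).vertexCount = 2 := by
    apply ChordDiagram.conj_two hX h1 h2
    left
    rw [X.invol]
    intro hh
    apply hne
    have h3 : X.phi.SameCycle ⟨4 * k + 1, by omega⟩ (X.partner w) :=
      h.chain (((X.partner w).val - 4 * k) / 2) _ _ (by simp only []; omega)
        (by simp only []; omega)
    exact hh.trans h3.symm
  have hdY : Hd k (X.conj (X.partner u) w) := hd.conj hgu (by simp only [w]; omega)
  refine ⟨X.conj (X.partner u) w, Reach.step (Reach.refl 0 X) (X.isSwap_conj h1 h2) hcrit, hcrit,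
    hdY, ?_⟩
  intro hdip
  have h4 := hdip.odd hcrit hdY (by omega) (i := u) le_rfl (by simp only [u]; omega)
  have h5 : (X.conj (X.partner u) w).partner u = w := by
    rw [X.conj_apply, swap_apply_of_ne_of_ne (X.ne u).symm huw, swap_apply_left]
  rw [h5] at h4
  simp only [w] at h4
  omega

/-- moving a leaf to the first remaining position -/
theorem transport {k : ℕ} {X : ChordDiagram n} (hX : X.vertexCount = 2) (hd : Hd k X)
    (hk : 4 * k + 4 ≤ 2 * n) {s : Fin (2 * n)} (hs : 4 * k ≤ s.val) (hs2 : s.val + 2 ≤ 2 * n)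
    (hleaf : X.partner s = finRotate (2 * n) s) :
    ∃ Y : ChordDiagram n, Reach 2 X Y ∧ Y.vertexCount = 2 ∧ Hd k Y ∧
      Y.partner ⟨4 * k, by omega⟩ = finRotate (2 * n) ⟨4 * k, by omega⟩ := by
  set u : Fin (2 * n) := ⟨4 * k, by omega⟩ with hu
  set w : Fin (2 * n) := ⟨4 * k + 2, by omega⟩ with hw
  have hvu : (finRotate (2 * n) u).val = 4 * k + 1 := rot_val u (by rw [hu]; simp only []; omega)
  have hruw : finRotate (2 * n) (finRotate (2 * n) u) = w := by
    apply Fin.ext
    rw [rot_val _ (by rw [hvu]; omega), hvu]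
  have huw : u ≠ w := by
    intro hh
    have := congrArg Fin.val hh
    simp only [u, w] at this
    omega
  by_cases hsu : s = u
  · exact ⟨X, Reach.refl 2 X, hX, hd, by rw [hsu] at hleaf; exact hleaf⟩
  set q : Fin (2 * n) := finRotate (2 * n) s with hq
  have hqv : q.val = s.val + 1 := rot_val s (by omega)
  have hqfix : X.phi q = q := by
    rw [ChordDiagram.phi_apply, ← hleaf, X.invol, hleaf]
  have hqs : X.partner q = s := by rw [← hleaf, X.invol]
  have hsval : s.val ≠ 4 * k := by
    intro hh; exact hsu (Fin.ext hh)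
  have huq : u ≠ q := by
    intro hh
    have := congrArg Fin.val hh
    rw [hqv] at this
    simp only [u] at this
    omega
  by_cases hwq : w = q
  · -- the corner `w` is the vertex of the leaf
    obtain ⟨Y, hr, hY, hdY, hp⟩ := leaf hX hd (s := u) le_rfl (by simp only [u]; omega) (by
      rw [hruw, hwq]
      intro hh
      exact huq (same_of_fixed hqfix hh.symm))
    exact ⟨Y, hr.mono (by omega), hY, hdY, hp⟩
  have hsq : s ≠ q := by
    intro hh
    have := congrArg Fin.val hh
    omega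
  have hnq : ∀ x, x ≠ q → ¬ X.phi.SameCycle q x := fun x hx hh => hx (same_of_fixed hqfix hh)
  have hsame : ∀ x y, x ≠ q → y ≠ q → X.phi.SameCycle x y := by
    intro x y hx hy
    rcases three_of_two (p := X.phi) hX q x y with h1 | h1 | h1
    · exact absurd h1 (hnq x hx)
    · exact absurd h1 (hnq y hy)
    · exact h1
  -- the first swap
  have key : ∀ x : Fin (2 * n), 4 * k ≤ x.val → x ≠ q → s ≠ x →
      ¬ (X.phi * swap s x).SameCycle u w →
      ∃ Y : ChordDiagram n, Reach 1 X Y ∧ Y.vertexCount = 2 ∧ Hd k Y ∧ ¬ Y.phi.SameCycle u w := by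
    intro x hxk hxq hsx hsep
    have hC1 : q ≠ X.partner x := by
      intro hh
      apply hsx
      rw [← hqs, hh, X.invol]
    have hC2 : X.partner q ≠ X.partner x := fun hh => hxq (X.partner.injective hh).symm
    have hcrit : (X.conj q (X.partner x)).vertexCount = 2 := by
      apply ChordDiagram.conj_two hX hC1 hC2
      right
      exact hnq _ hC1.symm
    refine ⟨X.conj q (X.partner x), Reach.step (Reach.refl 0 X) (X.isSwap_conj hC1 hC2) hcrit,
      hcrit, hd.conj (by rw [hqv]; omega) (hd.ge hxk), ?_⟩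
    rw [ChordDiagram.phi_conj, hqs, X.invol]
    apply insert_fixed _ hC1.symm huq hwq hsep
    rw [Perm.mul_apply, swap_apply_of_ne_of_ne hsq.symm hxq.symm, hqfix]
  have hex : ∃ Y : ChordDiagram n, Reach 1 X Y ∧ Y.vertexCount = 2 ∧ Hd k Y ∧
      ¬ Y.phi.SameCycle u w := by
    rcases split_sep X.phi s u w huw hsu (hsame _ _ hsq huq) (hsame _ _ hsq hwq) with h1 | ⟨h1, h2⟩
    · exact key u (by simp only [u]; omega) huq hsu h1
    · exact key w (by simp only [w]; omega) hwq h1 h2
  obtain ⟨Y, hr, hY, hdY, hsep⟩ := hex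
  obtain ⟨Z, hr', hZ, hdZ, hp⟩ := leaf hY hdY (s := u) le_rfl (by simp only [u]; omega) (by
    rw [hruw]; exact hsep)
  exact ⟨Z, hr.trans hr', hZ, hdZ, hp⟩

/-- creating a handle -/
theorem handle {k : ℕ} {X : ChordDiagram n} (hX : X.vertexCount = 2) (hd : Hd k X)
    (hk : 4 * k + 4 ≤ 2 * n)
    (hleaf : X.partner ⟨4 * k, by omega⟩ = finRotate (2 * n) ⟨4 * k, by omega⟩) :
    ∃ Y : ChordDiagram n, Reach 2 X Y ∧ Y.vertexCount = 2 ∧ Hd (k + 1) Y := by
  set e0 : Fin (2 * n) := ⟨4 * k, by omega⟩ with he0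
  set e1 : Fin (2 * n) := ⟨4 * k + 1, by omega⟩ with he1
  set e2 : Fin (2 * n) := ⟨4 * k + 2, by omega⟩ with he2
  set e3 : Fin (2 * n) := ⟨4 * k + 3, by omega⟩ with he3
  have hr0 : finRotate (2 * n) e0 = e1 := Fin.ext (by rw [rot_val _ (by simp only [e0]; omega)])
  have hr1 : finRotate (2 * n) e1 = e2 := Fin.ext (by rw [rot_val _ (by simp only [e1]; omega)])
  have hr2 : finRotate (2 * n) e2 = e3 := Fin.ext (by rw [rot_val _ (by simp only [e2]; omega)])
  have n01 : e0 ≠ e1 := by intro hh; have := congrArg Fin.val hh; simp only [e0, e1] at this; omega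
  have n02 : e0 ≠ e2 := by intro hh; have := congrArg Fin.val hh; simp only [e0, e2] at this; omega
  have n03 : e0 ≠ e3 := by intro hh; have := congrArg Fin.val hh; simp only [e0, e3] at this; omega
  have n12 : e1 ≠ e2 := by intro hh; have := congrArg Fin.val hh; simp only [e1, e2] at this; omega
  have n13 : e1 ≠ e3 := by intro hh; have := congrArg Fin.val hh; simp only [e1, e3] at this; omega
  have n23 : e2 ≠ e3 := by intro hh; have := congrArg Fin.val hh; simp only [e2, e3] at this; omega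
  rw [hr0] at hleaf
  have hp1 : X.partner e1 = e0 := by rw [← hleaf, X.invol]
  have hfix1 : X.phi e1 = e1 := by rw [ChordDiagram.phi_apply, hp1, hr0]
  have hn1 : ∀ x, x ≠ e1 → ¬ X.phi.SameCycle e1 x := fun x hx hh => hx (same_of_fixed hfix1 hh)
  have hsame : ∀ x y, x ≠ e1 → y ≠ e1 → X.phi.SameCycle x y := by
    intro x y hx hy
    rcases three_of_two (p := X.phi) hX e1 x y with h1 | h1 | h1
    · exact absurd h1 (hn1 x hx)
    · exact absurd h1 (hn1 y hy)
    · exact h1
  -- the partner of `e2` is not `e3`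
  have hc3 : X.partner e2 ≠ e3 := by
    intro hh
    have h3 : X.partner e3 = e2 := by rw [← hh, X.invol]
    have hfix3 : X.phi e3 = e3 := by rw [ChordDiagram.phi_apply, h3, hr2]
    exact n03 (same_of_fixed hfix3 (hsame e3 e0 n13.symm n01))
  set c : Fin (2 * n) := X.partner e2 with hc
  have hc2 : X.partner c = e2 := by rw [hc, X.invol]
  have hce2 : c ≠ e2 := X.ne e2
  have hce1 : c ≠ e1 := by
    intro hh
    rw [hh, hp1] at hc2
    exact n02 hc2
  have hce0 : c ≠ e0 := by
    intro hh
    rw [hh, hleaf] at hc2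
    exact n12 hc2
  -- first swap: `{e0, e1}, {e2, c} → {e0, e2}, {e1, c}`
  have s1a : e1 ≠ e2 := n12
  have s1b : X.partner e1 ≠ e2 := by rw [hp1]; exact n02
  have hcrit1 : (X.conj e1 e2).vertexCount = 2 :=
    ChordDiagram.conj_two hX s1a s1b (Or.inr (hn1 _ n12.symm))
  set Y := X.conj e1 e2 with hY
  have hYphi : Y.phi = X.phi * swap e0 c * swap e1 e2 := by
    rw [hY, ChordDiagram.phi_conj, hp1]
  have hY0 : Y.partner e0 = e2 := by
    rw [hY, X.conj_apply, swap_apply_of_ne_of_ne n01 n02, hleaf, swap_apply_left]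
  have hY2 : Y.partner e2 = e0 := by rw [← hY0, Y.invol]
  have hY1 : Y.partner e1 = c := by
    rw [hY, X.conj_apply, swap_apply_left, ← hc, swap_apply_of_ne_of_ne hce1 hce2]
  have hYc : Y.partner c = e1 := by rw [← hY1, Y.invol]
  have hdY : Hd k Y := hd.conj (by simp only [e1]; omega) (by simp only [e2]; omega)
  -- separation
  have hsep : ¬ Y.phi.SameCycle e0 c := by
    rw [hYphi]
    apply insert_fixed _ n12.symm n01 hce1
      (not_same_mul_swap X.phi e0 c hce0.symm (hsame _ _ n01 hce1))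
    rw [Perm.mul_apply, swap_apply_of_ne_of_ne n01.symm hce1.symm, hfix1]
  have h03 : Y.phi.SameCycle e0 e3 := by
    have := same_phi Y e0
    rwa [ChordDiagram.phi_apply, hY0, hr2] at this
  -- second swap: `{e1, c}, {e3, d} → {e1, e3}, {c, d}`
  have s2a : c ≠ e3 := hc3
  have s2b : Y.partner c ≠ e3 := by rw [hYc]; exact n13
  have hcrit2 : (Y.conj c e3).vertexCount = 2 :=
    ChordDiagram.conj_two hcrit1 s2a s2b (Or.inr (fun hh => hsep (h03.trans hh.symm)))
  have hck : 4 * k ≤ c.val := hd.ge (by simp only [e2]; omega)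
  have hdZ : Hd k (Y.conj c e3) := hdY.conj hck (by simp only [e3]; omega)
  have hZ1 : (Y.conj c e3).partner e1 = e3 := by
    rw [Y.conj_apply, swap_apply_of_ne_of_ne hce1.symm n13, hY1, swap_apply_left]
  have hZ3 : (Y.conj c e3).partner e3 = e1 := by
    rw [ChordDiagram.partner_eq_iff]; exact hZ1
  have hZ0 : (Y.conj c e3).partner e0 = e2 := by
    rw [Y.conj_apply, swap_apply_of_ne_of_ne hce0.symm n03, hY0,
      swap_apply_of_ne_of_ne hce2.symm n23]
  have hZ2 : (Y.conj c e3).partner e2 = e0 := by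
    rw [ChordDiagram.partner_eq_iff]; exact hZ0
  refine ⟨Y.conj c e3, Reach.step (Reach.step (Reach.refl 0 X) (X.isSwap_conj s1a s1b) hcrit1)
    (Y.isSwap_conj s2a s2b) hcrit2, hcrit2, ?_⟩
  intro i hi
  by_cases hik : i.val < 4 * k
  · exact hdZ i hik
  · have h4 : i.val = 4 * k ∨ i.val = 4 * k + 1 ∨ i.val = 4 * k + 2 ∨ i.val = 4 * k + 3 := by omega
    rcases h4 with h4 | h4 | h4 | h4
    · have : i = e0 := Fin.ext h4
      rw [this, hZ0]
      simp only [e0, e2, hp]
      split_ifs <;> omega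
    · have : i = e1 := Fin.ext h4
      rw [this, hZ1]
      simp only [e1, e3, hp]
      split_ifs <;> omega
    · have : i = e2 := Fin.ext h4
      rw [this, hZ2]
      simp only [e0, e2, hp]
      split_ifs <;> omega
    · have : i = e3 := Fin.ext h4
      rw [this, hZ3]
      simp only [e1, e3, hp]
      split_ifs <;> omega

/-- one more handle in six swaps -/
theorem next_handle {k : ℕ} {X : ChordDiagram n} (hX : X.vertexCount = 2) (hd : Hd k X)
    (hk : 4 * k + 4 ≤ 2 * n) :
    ∃ Y : ChordDiagram n, Reach 6 X Y ∧ Y.vertexCount = 2 ∧ Hd (k + 1) Y := by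
  obtain ⟨Y1, r1, v1, d1, hnd⟩ := escape hX hd hk
  unfold Dip at hnd
  push Not at hnd
  obtain ⟨s, hs, hs2, hns⟩ := hnd
  obtain ⟨Y2, r2, v2, d2, hl⟩ := leaf v1 d1 hs hs2 hns
  obtain ⟨Y3, r3, v3, d3, hl3⟩ := transport v2 d2 hk hs hs2 hl
  obtain ⟨Y4, r4, v4, d4⟩ := handle v3 d3 hk hl3
  exact ⟨Y4, (((r1.trans r2).trans r3).trans r4), v4, d4⟩

theorem all_handles {g : ℕ} {X : ChordDiagram (2 * g + 1)} (hX : X.vertexCount = 2) (k : ℕ)
    (hk : k ≤ g) : ∃ Y : ChordDiagram (2 * g + 1), Reach (6 * k) X Y ∧ Y.vertexCount = 2 ∧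
      Hd k Y := by
  induction k with
  | zero => exact ⟨X, Reach.refl _ X, hX, fun i hi => by omega⟩
  | succ k ih =>
    obtain ⟨Y, r, v, d⟩ := ih (by omega)
    obtain ⟨Z, r', v', d'⟩ := next_handle v d (by omega)
    exact ⟨Z, r.trans r', v', d'⟩

theorem ChordDiagram.ext' {X Y : ChordDiagram n} (h : ∀ i, X.partner i = Y.partner i) : X = Y := by
  obtain ⟨p, h1, h2⟩ := X
  obtain ⟨q, h3, h4⟩ := Y
  have : p = q := Equiv.ext h
  subst this
  rfl

theorem unique_final {g : ℕ} {X Y : ChordDiagram (2 * g + 1)} (hX : Hd g X) (hY : Hd g Y) :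
    X = Y := by
  apply ChordDiagram.ext'
  intro i
  apply Fin.ext
  rcases Nat.lt_or_ge i.val (4 * g) with h1 | h1
  · rw [hX i h1, hY i h1]
  · have a1 := hX.ge h1
    have a2 := hY.ge h1
    have b1 := (X.partner i).isLt
    have b2 := (Y.partner i).isLt
    have c1 : (X.partner i).val ≠ i.val := fun hh => X.ne i (Fin.ext hh)
    have c2 : (Y.partner i).val ≠ i.val := fun hh => Y.ne i (Fin.ext hh)
    have hi := i.isLt
    omega

end Pool.Agent.Q254.CSwap
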